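import Pool.Agent.Hp21.C32Four4

/-!
# Two-transitive subgroups of PGL(4, F)

Let F be an infinite field.  A subgroup G of PGL(4, F) is 2-transitive on the points of the
projective space PG(3, F) if and only if it contains PSL(4, F).

The proof shows that a 2-transitive group in rank 4 always has an element that fixes a line, is
not a scalar on it and is a scalar modulo it; the theorem about such groups that is already in
`TwoTransitive` then gives the statement.
-/

namespace Pool.Agent.Results.MP_c32cfc_al.RankFour

open scoped LinearAlgebra.Projectivization MatrixGroups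
open Matrix Pool.Agent.Results.MP_c32cfc_al.TwoTransitive Pool.Agent.Hp21.C32

theorem result {F : Type*} [Field F] [Infinite F] (G : Subgroup PGL(4, F)) :
    MulAction.IsMultiplyPretransitive G (ℙ F (Fin 4 → F)) 2 ↔
      (ProjectiveSpecialLinearGroup.toPGL (n := Fin 4) (R := F)).range ≤ G := by
  constructor
  · intro h
    have hK := Two_KG h
    have hdim : Module.finrank F (Fin 4 → F) = 4 := Module.finrank_fin_fun F
    have hT := all_tv (by rw [hdim]; omega) hK (Or.inr (line_four hdim hK))
    rintro _ ⟨x, rfl⟩
    obtain ⟨S, rfl⟩ := QuotientGroup.mk_surjective x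
    rw [ProjectiveSpecialLinearGroup.toPGL_mk]
    obtain ⟨g, ⟨A, hA, hgA⟩, hg⟩ := InK_SL hT (by omega) S.1 S.2
    have : SpecialLinearGroup.toGL S = A := by
      apply Units.ext
      apply Matrix.ext_of_mulVec_single
      intro i
      have h1 := hg (Pi.single i 1)
      rw [hgA] at h1
      exact h1.symm
    rw [this]
    exact hA
  · intro h
    exact (backward (by omega) G h).1

end Pool.Agent.Results.MP_c32cfc_al.RankFour
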